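import Pool.Agent.Lib.MP_0447a2_lc.Steps

set_option autoImplicit false

open Filter Topology

namespace Pool.Agent.Lib.MP_0447a2_lc

lemma rescale {α c : ℝ} (hα : 1 < |α|) {M : ℕ} {Q : ℝ → Prop}
    (h : ∀ θ : ℝ, ∃ θ' : ℝ, |θ' - θ| + c / |α| ^ M ≤ c ∧
      ∀ η : ℝ, |η - θ'| ≤ c / |α| ^ M → Q η) (u : ℝ) (N : ℕ) :
    ∃ u' : ℝ, |u' - u| + c / |α| ^ (N + M) ≤ c / |α| ^ N ∧
      ∀ ξ : ℝ, |ξ - u'| ≤ c / |α| ^ (N + M) → Q (ξ * α ^ N) := by
  have hβ : 0 < |α| := by linarith
  have hα0 : α ≠ 0 := abs_pos.1 hβ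
  have hN : α ^ N ≠ 0 := pow_ne_zero _ hα0
  have hB : 0 < |α| ^ N := by positivity
  obtain ⟨θ', h1, h2⟩ := h (u * α ^ N)
  refine ⟨θ' / α ^ N, ?_, ?_⟩
  · have e : θ' / α ^ N - u = (θ' - u * α ^ N) / α ^ N := by field_simp
    have e2 : c / |α| ^ (N + M) = c / |α| ^ M / |α| ^ N := by rw [pow_add]; field_simp
    rw [e, abs_div, abs_pow, e2, ← add_div]
    gcongr
  · intro ξ hξ
    apply h2
    have e : ξ * α ^ N - θ' = (ξ - θ' / α ^ N) * α ^ N := by field_simp
    rw [e, abs_mul, abs_pow]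
    calc |ξ - θ' / α ^ N| * |α| ^ N ≤ c / |α| ^ (N + M) * |α| ^ N := by gcongr
      _ = c / |α| ^ M := by rw [pow_add]; field_simp

lemma iterate {α c : ℝ} (hα : 1 < |α|) {M : ℕ} {Q : ℝ → Prop}
    (h : ∀ θ : ℝ, ∃ θ' : ℝ, |θ' - θ| + c / |α| ^ M ≤ c ∧
      ∀ η : ℝ, |η - θ'| ≤ c / |α| ^ M → Q η) (u : ℝ) (N : ℕ) (R : ℕ) :
    ∃ u' : ℝ, |u' - u| + c / |α| ^ (N + R * M) ≤ c / |α| ^ N ∧
      ∀ ξ : ℝ, |ξ - u'| ≤ c / |α| ^ (N + R * M) → ∀ r < R, Q (ξ * α ^ (N + r * M)) := by
  induction R with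
  | zero => exact ⟨u, by simp, fun ξ _ r hr => absurd hr (Nat.not_lt_zero r)⟩
  | succ R ih =>
    obtain ⟨u1, h1, h2⟩ := ih
    obtain ⟨u2, h3, h4⟩ := rescale hα h u1 (N + R * M)
    have e : N + (R + 1) * M = N + R * M + M := by ring
    rw [e]
    refine ⟨u2, ?_, ?_⟩
    · have : |u2 - u| ≤ |u2 - u1| + |u1 - u| := abs_sub_le _ _ _
      linarith
    · intro ξ hξ r hr
      rcases Nat.lt_succ_iff_lt_or_eq.1 hr with hr | rfl
      · apply h2 ξ _ r hr
        have : |ξ - u1| ≤ |ξ - u2| + |u2 - u1| := abs_sub_le _ _ _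
        linarith
      · exact h4 ξ hξ

lemma wsum_add (x : ℕ → ℝ) (h N L : ℕ) :
    wsum x h (N + L) = wsum x h N + ∑ j ∈ Finset.range L, ee (h * x (N + j)) := by
  unfold wsum
  rw [Finset.sum_range_add]

lemma norm_wsum_add_le (x : ℕ → ℝ) (h N L : ℕ) :
    ‖wsum x h (N + L)‖ ≤ ‖wsum x h N‖ + L := by
  rw [wsum_add]
  refine le_trans (norm_add_le _ _) ?_
  gcongr
  calc _ ≤ ∑ j ∈ Finset.range L, (1 : ℝ) := norm_sum_le_of_le _ fun j _ => (norm_ee _).le
    _ = L := by simp

lemma norm_wsum_le (x : ℕ → ℝ) (h N : ℕ) : ‖wsum x h N‖ ≤ N := by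
  have := norm_wsum_add_le x h 0 N
  simpa [wsum] using this

lemma norm_wsum_blocks (x : ℕ → ℝ) (h N M R : ℕ) {ε : ℝ} (hε : 0 ≤ ε) (hM : 1 ≤ M)
    (hb : ∀ r < R, ‖∑ j ∈ Finset.range M, ee (h * x (N + r * M + j))‖ ≤ ε * M) :
    ∀ L ≤ R * M, ‖wsum x h (N + L)‖ ≤ ‖wsum x h N‖ + ε * L + M := by
  have h1 : ∀ r ≤ R, ‖wsum x h (N + r * M)‖ ≤ ‖wsum x h N‖ + ε * (r * M) := by
    intro r
    induction r with
    | zero => intro _; simp
    | succ r ih =>
      intro hr
      have e : N + (r + 1) * M = N + r * M + M := by ring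
      rw [e, wsum_add]
      refine le_trans (norm_add_le _ _) ?_
      have := ih (by omega)
      have := hb r (by omega)
      push_cast
      linarith
  intro L hL
  have e : N + L = N + (L / M) * M + L % M := by
    have := Nat.div_add_mod L M
    rw [mul_comm] at this
    omega
  have a1 : L / M ≤ R := by
    apply Nat.div_le_of_le_mul; rw [mul_comm]; exact hL
  have a2 := h1 _ a1
  have a3 := norm_wsum_add_le x h (N + (L / M) * M) (L % M)
  have a4 : ((L % M : ℕ) : ℝ) ≤ M := by exact_mod_cast (Nat.mod_lt L hM).le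
  have a5 : ((L / M : ℕ) : ℝ) * M ≤ L := by exact_mod_cast Nat.div_mul_le_self L M
  rw [e]
  have : ε * (((L / M : ℕ) : ℝ) * M) ≤ ε * L := by gcongr
  have e2 : ((N + (L / M) * M + L % M : ℕ)) = N + L := e.symm
  linarith

/-- one stage of the construction -/
lemma stage {α c δ : ℝ} (hα : 1 < |α|) {D : ℕ} (hD : 1 ≤ D) {M : ℕ → ℕ} (hM : ∀ k, 1 ≤ M k)
    (hA : ∀ θ : ℝ, ∃ θ' : ℝ, |θ' - θ| + c / |α| ^ D ≤ c ∧
        ∀ η : ℝ, |η - θ'| ≤ c / |α| ^ D → ∀ j < D, δ ≤ Int.fract (η * α ^ j))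
    (hE : ∀ k : ℕ, ∀ θ : ℝ, ∃ θ' : ℝ, |θ' - θ| + c / |α| ^ (M k) ≤ c ∧
      ∀ η : ℝ, |η - θ'| ≤ c / |α| ^ (M k) → ∀ h : ℕ, 1 ≤ h → h ≤ k →
        ‖∑ j ∈ Finset.range (M k), ee (h * (η * α ^ j))‖ ≤ 1 / (k + 1) * M k)
    (k m : ℕ) (p : ℝ × ℕ) :
    ∃ q : ℝ × ℕ, p.2 < q.2 ∧ |q.1 - p.1| + c / |α| ^ q.2 ≤ c / |α| ^ p.2 ∧
      (k + 2) * (M (k + 1) + D) ≤ q.2 ∧
      ∀ ξ : ℝ, |ξ - q.1| ≤ c / |α| ^ q.2 →
        (∃ N' : ℕ, (m + 2) * p.2 ≤ (m + 1) * N' ∧
          cnt (fun n => ξ * α ^ n) 0 δ N' = cnt (fun n => ξ * α ^ n) 0 δ p.2) ∧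
        (∀ h : ℕ, 1 ≤ h → h ≤ k → ∀ L : ℕ, p.2 ≤ L → L ≤ q.2 →
          ‖wsum (fun n => ξ * α ^ n) h L‖ ≤ ‖wsum (fun n => ξ * α ^ n) h p.2‖ +
            p.2 / (m + 1) + D + L / (k + 1) + M k) ∧
        (∀ h : ℕ, 1 ≤ h → h ≤ k →
          ‖wsum (fun n => ξ * α ^ n) h q.2‖ ≤ 2 * q.2 / (k + 1)) := by
  obtain ⟨u, N⟩ := p
  set R1 := N / ((m + 1) * D) + 1 with hR1
  obtain ⟨u1, a1, a2⟩ := iterate hα hA u N R1
  set N' := N + R1 * D with hN'
  set R2 := (k + 2) * (N' + M k + M (k + 1) + D + 1) with hR2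
  obtain ⟨u2, b1, b2⟩ := iterate hα (hE k) u1 N' R2
  set N'' := N' + R2 * M k with hN''
  have hR2M : R2 ≤ R2 * M k := Nat.le_mul_of_pos_right _ (hM k)
  have hpos : 0 < (m + 1) * D := Nat.mul_pos (by omega) hD
  have c1 : N < R1 * ((m + 1) * D) := by
    rw [hR1, mul_comm]
    exact Nat.lt_mul_div_succ N hpos
  have c2 : (R1 * D : ℝ) ≤ N / (m + 1) + D := by
    have : (N / ((m + 1) * D)) * ((m + 1) * D) ≤ N := Nat.div_mul_le_self _ _
    have h2 : ((N / ((m + 1) * D) : ℕ) : ℝ) * ((m + 1) * D) ≤ N := by exact_mod_cast this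
    have h3 : ((N / ((m + 1) * D) : ℕ) : ℝ) * D ≤ N / (m + 1) := by
      rw [le_div_iff₀ (by positivity)]; linarith
    rw [hR1]; push_cast; linarith
  have c3 : (k + 2) * (N' + M k + M (k + 1) + D + 1) ≤ N'' := by omega
  refine ⟨(u2, N''), ?_, ?_, ?_, ?_⟩
  · show N < N''
    nlinarith
  · show |u2 - u| + c / |α| ^ N'' ≤ c / |α| ^ N
    have : |u2 - u| ≤ |u2 - u1| + |u1 - u| := abs_sub_le _ _ _
    linarith
  · show (k + 2) * (M (k + 1) + D) ≤ N''
    refine le_trans ?_ c3
    apply Nat.mul_le_mul_left; omega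
  · intro ξ hξ
    simp only at hξ ⊢
    have hξ1 : |ξ - u1| ≤ c / |α| ^ N' := by
      have : |ξ - u1| ≤ |ξ - u2| + |u2 - u1| := abs_sub_le _ _ _
      linarith
    have hblocks : ∀ h : ℕ, 1 ≤ h → h ≤ k → ∀ L ≤ R2 * M k,
        ‖wsum (fun n => ξ * α ^ n) h (N' + L)‖ ≤ ‖wsum (fun n => ξ * α ^ n) h N'‖ +
          1 / (k + 1) * L + M k := by
      intro h h1 h2
      apply norm_wsum_blocks _ h N' (M k) R2 (by positivity) (hM k)
      intro r hr
      have := b2 ξ hξ r hr h h1 h2
      simpa only [pow_add, mul_assoc] using this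
    refine ⟨⟨N', ?_, ?_⟩, ?_, ?_⟩
    · rw [hN']; nlinarith
    · unfold cnt
      congr 1
      ext n
      simp only [Finset.mem_filter, Finset.mem_range]
      constructor
      · rintro ⟨h1, h2, h3⟩
        refine ⟨?_, h2, h3⟩
        by_contra hn
        push Not at hn
        have d1 : (n - N) / D < R1 := by
          apply Nat.div_lt_of_lt_mul; rw [mul_comm]; omega
        have d2 := a2 ξ hξ1 _ d1 ((n - N) % D) (Nat.mod_lt _ hD)
        have d3 : n = N + (n - N) / D * D + (n - N) % D := by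
          have := Nat.div_add_mod (n - N) D
          rw [mul_comm] at this
          omega
        rw [mul_assoc, ← pow_add, ← d3] at d2
        linarith
      · rintro ⟨h1, h2, h3⟩
        exact ⟨by omega, h2, h3⟩
    · intro h h1 h2 L hL1 hL2
      have hk0 : (0 : ℝ) ≤ L / (k + 1) := by positivity
      have hM0 : (0 : ℝ) ≤ M k := by positivity
      rcases le_total L N' with hL | hL
      · have d1 := norm_wsum_add_le (fun n => ξ * α ^ n) h N (L - N)
        rw [Nat.add_sub_cancel' hL1] at d1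
        have d2 : ((L - N : ℕ) : ℝ) ≤ R1 * D := by
          have : L - N ≤ R1 * D := by omega
          exact_mod_cast this
        linarith
      · have d1 := hblocks h h1 h2 (L - N') (by omega)
        rw [Nat.add_sub_cancel' hL] at d1
        have d2 := norm_wsum_add_le (fun n => ξ * α ^ n) h N (R1 * D)
        rw [← hN'] at d2
        push_cast at d2
        have d3 : 1 / ((k : ℝ) + 1) * ((L - N' : ℕ) : ℝ) ≤ L / (k + 1) := by
          have : ((L - N' : ℕ) : ℝ) ≤ L := by exact_mod_cast Nat.sub_le L N'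
          rw [one_div_mul_eq_div]; gcongr
        linarith
    · intro h h1 h2
      have d1 := hblocks h h1 h2 (R2 * M k) le_rfl
      rw [← hN''] at d1
      have d2 := norm_wsum_le (fun n => ξ * α ^ n) h N'
      have d3 : 1 / ((k : ℝ) + 1) * ((R2 * M k : ℕ) : ℝ) ≤ N'' / (k + 1) := by
        have : ((R2 * M k : ℕ) : ℝ) ≤ N'' := by
          have : R2 * M k ≤ N'' := by omega
          exact_mod_cast this
        rw [one_div_mul_eq_div]; gcongr
      have d4 : (N' : ℝ) + M k ≤ N'' / (k + 1) := by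
        rw [le_div_iff₀ (by positivity)]
        have : (N' + M k) * (k + 1) ≤ N'' := by nlinarith
        exact_mod_cast this
      have : 2 * (N'' : ℝ) / (k + 1) = N'' / (k + 1) + N'' / (k + 1) := by ring
      linarith

/-- The key reduction: a continuous map from Baire space. -/
theorem exists_reduction {α : ℝ} (hα : 1 < |α|) :
    ∃ g : (ℕ → ℕ) → ℝ, Continuous g ∧
      ∀ y, UD (fun n => g y * α ^ n) ↔ Tendsto y atTop atTop := by
  obtain ⟨c, δ, D, hc, hδ, hδ1, hD, hA⟩ := stepA hα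
  have hE0 : ∀ k : ℕ, _ := fun k => stepE hα hc k (show (0 : ℝ) < 1 / (k + 1) by positivity)
  choose M hM hE using hE0
  choose next hn1 hn2 hn3 hn4 using stage hα hD hM hA hE
  let st : (ℕ → ℕ) → ℕ → ℝ × ℕ := fun y k => Nat.rec (0, 0) (fun k p => next k (y k) p) k
  have hst : ∀ y k, st y (k + 1) = next k (y k) (st y k) := fun y k => rfl
  have hβ : 0 < |α| := by linarith
  have hlc : ∀ k, IsLocallyConstant (fun y => st y k) := by
    intro k
    induction k with
    | zero => exact IsLocallyConstant.const _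
    | succ k ih =>
      have h1 : IsLocallyConstant (fun y : ℕ → ℕ => y k) :=
        (IsLocallyConstant.iff_continuous _).2 (continuous_apply k)
      exact h1.comp₂ ih (next k)
  have hmono : ∀ y, StrictMono (fun k => (st y k).2) := fun y =>
    strictMono_nat_of_lt_succ fun k => hn1 k (y k) (st y k)
  have hnest : ∀ y k l, k ≤ l → |(st y l).1 - (st y k).1| + c / |α| ^ (st y l).2 ≤
      c / |α| ^ (st y k).2 := by
    intro y k l hkl
    induction l, hkl using Nat.le_induction with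
    | base => simp
    | succ l _ ih =>
      have h1 := hn2 l (y l) (st y l)
      rw [← hst] at h1
      have : |(st y (l + 1)).1 - (st y k).1| ≤ |(st y (l + 1)).1 - (st y l).1| +
        |(st y l).1 - (st y k).1| := abs_sub_le _ _ _
      linarith
  have hrad : ∀ y k, c / |α| ^ (st y k).2 ≤ c / |α| ^ k := by
    intro y k
    apply div_le_div_of_nonneg_left hc.le (by positivity)
    exact pow_le_pow_right₀ hα.le ((hmono y).le_apply)
  have hlim0 : Tendsto (fun k : ℕ => c / |α| ^ k) atTop (nhds 0) :=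
    tendsto_const_nhds.div_atTop (tendsto_pow_atTop_atTop_of_one_lt hα)
  have hcauchy : ∀ y, CauchySeq (fun k => (st y k).1) := by
    intro y
    apply cauchySeq_of_le_tendsto_0' (fun k : ℕ => c / |α| ^ k) _ hlim0
    intro k l hkl
    have h1 := hnest y k l hkl
    have h2 := hrad y k
    have h3 : 0 ≤ c / |α| ^ (st y l).2 := by positivity
    rw [Real.dist_eq, abs_sub_comm]
    linarith
  choose g hg using fun y => cauchySeq_tendsto_of_complete (hcauchy y)
  have hball : ∀ y k, |g y - (st y k).1| ≤ c / |α| ^ (st y k).2 := by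
    intro y k
    have h1 : Tendsto (fun l => |(st y l).1 - (st y k).1|) atTop (nhds |g y - (st y k).1|) :=
      ((hg y).sub_const _).abs
    apply le_of_tendsto h1
    filter_upwards [eventually_ge_atTop k] with l hl
    have h2 := hnest y k l hl
    have h3 : 0 ≤ c / |α| ^ (st y l).2 := by positivity
    linarith
  refine ⟨g, ?_, ?_⟩
  · have hunif : TendstoUniformly (fun k y => (st y k).1) g atTop := by
      rw [Metric.tendstoUniformly_iff]
      intro ε hε
      filter_upwards [hlim0.eventually (gt_mem_nhds hε)] with k hk y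
      rw [Real.dist_eq]
      exact lt_of_le_of_lt (le_trans (hball y k) (hrad y k)) hk
    apply hunif.continuous
    exact Frequently.of_forall fun k => ((hlc k).comp Prod.fst).continuous
  · intro y
    have hprop := fun k => hn4 k (y k) (st y k) (g y) (hball y (k + 1))
    simp only [← hst] at hprop
    have hNtop : Tendsto (fun k => (st y k).2) atTop atTop := (hmono y).tendsto_atTop
    constructor
    · intro hUD
      by_contra hy
      rw [tendsto_atTop] at hy
      push Not at hy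
      obtain ⟨b, hb⟩ := hy
      have hlim := hUD 0 δ le_rfl hδ.le hδ1
      rw [sub_zero] at hlim
      set ε : ℝ := δ / (4 * (b + 2)) with hε
      have hεpos : 0 < ε := by positivity
      obtain ⟨N0, hN0⟩ := eventually_atTop.1 ((Metric.tendsto_nhds.1 hlim) ε hεpos)
      have hev := hNtop.eventually (eventually_ge_atTop (N0 + 1))
      obtain ⟨k, hk1, hk2⟩ := (hb.and_eventually hev).exists
      obtain ⟨N', e1, e2⟩ := (hprop k).1
      set N := (st y k).2 with hN
      have hNN' : N ≤ N' := by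
        by_contra hcon
        push Not at hcon
        nlinarith
      have f1 := hN0 N (by omega)
      have f2 := hN0 N' (by omega)
      rw [e2] at f2
      rw [Real.dist_eq, abs_lt] at f1 f2
      have hNpos : (0 : ℝ) < N := by
        have : 0 < N := by omega
        exact_mod_cast this
      have hN'pos : (0 : ℝ) < N' := by
        have : 0 < N' := by omega
        exact_mod_cast this
      set C : ℝ := (cnt (fun n => g y * α ^ n) 0 δ N : ℝ) with hC
      have f3 : C < (δ + ε) * N := by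
        rw [← div_lt_iff₀ hNpos]; linarith [f1.2]
      have f4 : (δ - ε) * N' < C := by
        rw [← lt_div_iff₀ hN'pos]; linarith [f2.1]
      have e3 : ((b : ℝ) + 2) * N ≤ (b + 1) * N' := by
        have : (b + 2) * N ≤ (b + 1) * N' := by
          obtain ⟨d, hd⟩ : ∃ d, b = y k + d := ⟨b - y k, by omega⟩
          rw [hd]; nlinarith
        exact_mod_cast this
      have hb0 : (0 : ℝ) ≤ b := Nat.cast_nonneg b
      have hεδ : ε * (4 * (b + 2)) = δ := by rw [hε]; field_simp
      have f5 : 0 < δ - ε := by nlinarith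
      have f6 : (δ - ε) * ((b + 2) * N) ≤ (δ - ε) * ((b + 1) * N') := by gcongr
      have f7 : (b + 1) * ((δ - ε) * N') < (b + 1) * ((δ + ε) * N) := by
        have : (0 : ℝ) < b + 1 := by linarith
        exact mul_lt_mul_of_pos_left (by linarith) this
      have f8 : (δ - ε) * (b + 2) < (b + 1) * (δ + ε) := by
        have : (δ - ε) * (b + 2) * N < (b + 1) * (δ + ε) * N := by nlinarith
        exact lt_of_mul_lt_mul_right this hNpos.le
      nlinarith
    · intro hy
      apply UD_of_weyl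
      intro h hh
      rw [Metric.tendsto_nhds]
      intro ε hε
      obtain ⟨K, hK⟩ : ∃ K : ℕ, ∀ k ≥ K, h ≤ k ∧ 4 / ((k : ℝ) + 1) < ε / 2 ∧
          1 / ((y (k + 1) : ℝ) + 1) < ε / 2 := by
        have t1 : Tendsto (fun k : ℕ => 4 / ((k : ℝ) + 1)) atTop (nhds 0) :=
          tendsto_const_nhds.div_atTop (tendsto_atTop_add_const_right _ _ tendsto_natCast_atTop_atTop)
        have t2 : Tendsto (fun k : ℕ => 1 / ((y (k + 1) : ℝ) + 1)) atTop (nhds 0) :=
          tendsto_const_nhds.div_atTop (tendsto_atTop_add_const_right _ _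
            (tendsto_natCast_atTop_atTop.comp (hy.comp (tendsto_add_atTop_nat 1))))
        exact eventually_atTop.1 ((eventually_ge_atTop h).and
          ((t1.eventually (gt_mem_nhds (half_pos hε))).and
            (t2.eventually (gt_mem_nhds (half_pos hε)))))
      filter_upwards [eventually_ge_atTop (st y (K + 1)).2, eventually_gt_atTop 0] with L hL hL0
      have hex : ∃ l, L < (st y (l + 1)).2 := ⟨L, lt_of_lt_of_le (Nat.lt_succ_self L) (hmono y).le_apply⟩
      classical
      have hl1 := Nat.find_spec hex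
      have hl2 : K + 1 ≤ Nat.find hex := by
        by_contra hcon
        push Not at hcon
        have : (st y (Nat.find hex + 1)).2 ≤ (st y (K + 1)).2 := 
          (hmono y).monotone (show Nat.find hex + 1 ≤ K + 1 by omega)
        omega
      obtain ⟨k, hk⟩ : ∃ k, Nat.find hex = k + 1 := ⟨Nat.find hex - 1, by omega⟩
      have hl3 : (st y (k + 1)).2 ≤ L := by
        have := Nat.find_min hex (show k < Nat.find hex by omega)
        omega
      rw [hk] at hl1
      obtain ⟨k1, k2, k3⟩ := hK k (by omega)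
      have p1 := (hprop (k + 1)).2.1 h hh (by omega) L hl3 hl1.le
      have p2 := (hprop k).2.2 h hh k1
      have p3 := hn3 k (y k) (st y k)
      rw [← hst] at p3
      set N := (st y (k + 1)).2 with hN
      have hL' : (0 : ℝ) < L := by exact_mod_cast hL0
      have hNL : (N : ℝ) ≤ L := by exact_mod_cast hl3
      have p4 : (M (k + 1) : ℝ) + D ≤ L / (k + 1) := by
        rw [le_div_iff₀ (by positivity)]
        have : (M (k + 1) + D) * (k + 1) ≤ L := by nlinarith
        exact_mod_cast this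
      have p5 : 2 * (N : ℝ) / (k + 1) ≤ 2 * L / (k + 1) := by gcongr
      have p6 : (N : ℝ) / (y (k + 1) + 1) ≤ L / (y (k + 1) + 1) := by gcongr
      have p7 : (L : ℝ) / ((k + 1 : ℕ) + 1) ≤ L / (k + 1) := by
        push_cast
        apply div_le_div_of_nonneg_left hL'.le (by positivity) (by linarith)
      rw [dist_zero_right, norm_div, Complex.norm_natCast, div_lt_iff₀ hL']
      have p8 : 4 / ((k : ℝ) + 1) * L < ε / 2 * L := by gcongr
      have p9 : 1 / ((y (k + 1) : ℝ) + 1) * L < ε / 2 * L := by gcongr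
      have q1 : 4 / ((k : ℝ) + 1) * L = 2 * L / (k + 1) + L / (k + 1) + L / (k + 1) := by ring
      have q2 : 1 / ((y (k + 1) : ℝ) + 1) * L = L / (y (k + 1) + 1) := by ring
      linarith

end Pool.Agent.Lib.MP_0447a2_lc
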