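import Mathlib

set_option autoImplicit false

open Filter Topology

namespace Pool.Agent.Lib.MP_0447a2_lc

lemma closed_eq_iInter_clopen {X : Type*} [TopologicalSpace X] [SecondCountableTopology X]
    (hX : TopologicalSpace.IsTopologicalBasis {s : Set X | IsClopen s}) {G : Set X}
    (hG : IsClosed G) :
    ∃ C : ℕ → Set X, (∀ n, IsClopen (C n)) ∧ Antitone C ∧ ⋂ n, C n = G := by
  obtain ⟨S, hS1, hS2⟩ := hX.open_eq_sUnion hG.isOpen_compl
  obtain ⟨T, hT1, hT2, hT3⟩ := TopologicalSpace.isOpen_sUnion_countable S
    (fun s hs => (hS1 hs).isOpen)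
  obtain ⟨U, hU⟩ := (hT1.insert ∅).exists_eq_range ⟨∅, Set.mem_insert _ _⟩
  have hUc : ∀ n, IsClopen (U n) := by
    intro n
    have : U n ∈ insert ∅ T := by rw [hU]; exact ⟨n, rfl⟩
    rcases this with h | h
    · rw [h]; exact isClopen_empty
    · exact hS1 (hT2 h)
  refine ⟨fun n => ⋂ i ∈ Finset.range n, (U i)ᶜ, ?_, ?_, ?_⟩
  · intro n
    exact isClopen_biInter_finset fun i _ => (hUc i).compl
  · intro m n hmn x hx
    simp only [Set.mem_iInter] at hx ⊢
    intro i hi
    exact hx i (Finset.mem_range.2 (lt_of_lt_of_le (Finset.mem_range.1 hi) hmn))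
  · ext x
    simp only [Set.mem_iInter]
    constructor
    · intro hx
      by_contra hxG
      have : x ∈ ⋃₀ T := by rw [hT3, ← hS2]; exact hxG
      obtain ⟨t, ht, hxt⟩ := this
      have : t ∈ Set.range U := by rw [← hU]; exact Set.mem_insert_of_mem _ ht
      obtain ⟨i, rfl⟩ := this
      exact hx (i + 1) i (by simp) hxt
    · intro hx n i _ hxi
      have : U i ∈ insert ∅ T := by rw [hU]; exact ⟨i, rfl⟩
      rcases this with h | h
      · rw [h] at hxi; exact hxi
      · have : x ∈ Gᶜ := by rw [hS2, ← hT3]; exact ⟨_, h, hxi⟩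
        exact this hx

/-- Every Pi^0_3 subset of a zero-dimensional second countable space reduces continuously to the
set of sequences tending to infinity. -/
theorem reduce_to_C3_gen {X : Type*} [TopologicalSpace X] [SecondCountableTopology X]
    (hX : TopologicalSpace.IsTopologicalBasis {s : Set X | IsClopen s})
    (G : ℕ → ℕ → Set X) (hG : ∀ i j, IsClosed (G i j)) :
    ∃ Y : X → (ℕ → ℕ), Continuous Y ∧
      ∀ x, x ∈ (⋂ i, ⋃ j, G i j) ↔ Tendsto (Y x) atTop atTop := by
  choose C hC1 hC2 hC3 using fun i j => closed_eq_iInter_clopen hX (hG i j)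
  let J : ℕ → ℕ → X → ℕ := fun i n x => sInf {j | j = n ∨ (j < n ∧ x ∈ C i j n)}
  let Y : X → (ℕ → ℕ) := fun x n => sInf {i | i = n ∨ (i < n ∧ J i (n + 1) x ≠ J i n x)}
  have hmiss : ∀ i j x, x ∉ G i j → ∀ᶠ n in atTop, x ∉ C i j n := by
    intro i j x hx
    rw [← hC3 i j] at hx
    simp only [Set.mem_iInter, not_forall] at hx
    obtain ⟨n, hn⟩ := hx
    filter_upwards [eventually_ge_atTop n] with m hm hxm
    exact hn (hC2 i j hm hxm)
  have hmiss' : ∀ i K x, (∀ j < K, x ∉ G i j) → ∀ᶠ n in atTop, K ≤ J i n x := by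
    intro i K x hx
    have h1 : ∀ᶠ n in atTop, ∀ j ∈ Finset.range K, x ∉ C i j n := by
      rw [eventually_all_finset]
      intro j hj
      exact hmiss i j x (hx j (Finset.mem_range.1 hj))
    filter_upwards [h1, eventually_ge_atTop K] with n h1 h2
    have hne : {j | j = n ∨ (j < n ∧ x ∈ C i j n)}.Nonempty := ⟨n, Or.inl rfl⟩
    have hmem := Nat.sInf_mem hne
    by_contra hcon
    push Not at hcon
    rcases hmem with h | h
    · have : J i n x = n := h
      omega
    · exact h1 _ (Finset.mem_range.2 hcon) h.2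
  have hCloc : ∀ i j n x, ∀ᶠ x' in nhds x, (x' ∈ C i j n ↔ x ∈ C i j n) := by
    intro i j n x
    by_cases hx : x ∈ C i j n
    · filter_upwards [(hC1 i j n).isOpen.mem_nhds hx] with x' hx'
      exact ⟨fun _ => hx, fun _ => hx'⟩
    · filter_upwards [(hC1 i j n).compl.isOpen.mem_nhds hx] with x' hx'
      exact ⟨fun h => absurd h hx', fun h => absurd h hx⟩
  have hJloc : ∀ i n x, ∀ᶠ x' in nhds x, J i n x' = J i n x := by
    intro i n x
    have h1 : ∀ᶠ x' in nhds x, ∀ j ∈ Finset.range n, (x' ∈ C i j n ↔ x ∈ C i j n) := by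
      rw [eventually_all_finset]
      intro j _
      exact hCloc i j n x
    filter_upwards [h1] with x' hx'
    simp only [J]
    congr 1
    ext j
    simp only [Set.mem_ofPred_eq]
    refine or_congr Iff.rfl (and_congr_right fun hj => hx' j (Finset.mem_range.2 hj))
  refine ⟨Y, ?_, ?_⟩
  · apply continuous_pi
    intro n
    apply IsLocallyConstant.continuous
    rw [IsLocallyConstant.iff_eventually_eq]
    intro x
    have h1 : ∀ᶠ x' in nhds x, ∀ i ∈ Finset.range n,
        (J i (n + 1) x' = J i (n + 1) x ∧ J i n x' = J i n x) := by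
      rw [eventually_all_finset]
      intro i _
      exact (hJloc i (n + 1) x).and (hJloc i n x)
    filter_upwards [h1] with x' hx'
    simp only [Y]
    congr 1
    ext i
    simp only [Set.mem_ofPred_eq]
    refine or_congr Iff.rfl (and_congr_right fun hi => ?_)
    rw [(hx' i (Finset.mem_range.2 hi)).1, (hx' i (Finset.mem_range.2 hi)).2]
  · intro x
    simp only [Set.mem_iInter, Set.mem_iUnion]
    constructor
    · intro hx
      have hconst : ∀ i, ∀ᶠ n in atTop, J i (n + 1) x = J i n x := by
        intro i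
        classical
        have h1 : ∀ᶠ n in atTop, J i n x = Nat.find (hx i) := by
          filter_upwards [hmiss' i (Nat.find (hx i)) x (fun j hj => Nat.find_min (hx i) hj),
            eventually_gt_atTop (Nat.find (hx i))] with n hn hn'
          apply le_antisymm _ hn
          apply Nat.sInf_le
          refine Or.inr ⟨hn', ?_⟩
          have := Nat.find_spec (hx i)
          rw [← hC3] at this
          exact Set.mem_iInter.1 this n
        obtain ⟨n0, hn0⟩ := eventually_atTop.1 h1
        filter_upwards [eventually_ge_atTop n0] with n hn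
        rw [hn0 n hn, hn0 (n + 1) (by omega)]
      rw [tendsto_atTop]
      intro K
      have h1 : ∀ᶠ n in atTop, ∀ i ∈ Finset.range K, J i (n + 1) x = J i n x := by
        rw [eventually_all_finset]
        intro i _
        exact hconst i
      filter_upwards [h1, eventually_ge_atTop K] with n h1 h2
      have hne : {i | i = n ∨ (i < n ∧ J i (n + 1) x ≠ J i n x)}.Nonempty := ⟨n, Or.inl rfl⟩
      have hmem := Nat.sInf_mem hne
      by_contra hcon
      push Not at hcon
      rcases hmem with h | h
      · have : Y x n = n := h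
        omega
      · exact h.2 (h1 _ (Finset.mem_range.2 hcon))
    · intro hY i
      by_contra hcon
      push Not at hcon
      obtain ⟨n0, hn0⟩ := eventually_atTop.1
        (((tendsto_atTop.1 hY) (i + 1)).and (eventually_gt_atTop i))
      have h1 : ∀ n ≥ n0, J i (n + 1) x = J i n x := by
        intro n hn
        by_contra hne
        have : Y x n ≤ i := Nat.sInf_le (Or.inr ⟨(hn0 n hn).2, hne⟩)
        have := (hn0 n hn).1
        omega
      have h2 : ∀ n ≥ n0, J i n x = J i n0 x := by
        intro n hn
        induction n, hn using Nat.le_induction with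
        | base => rfl
        | succ n hn ih => rw [h1 n hn, ih]
      obtain ⟨n, h3, h4⟩ := ((hmiss' i (J i n0 x + 1) x (fun j _ => hcon j)).and
        (eventually_ge_atTop n0)).exists
      have := h2 n h4
      omega

end Pool.Agent.Lib.MP_0447a2_lc
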