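import Mathlib

set_option autoImplicit false

open Filter Topology

namespace Pool.Agent.Lib.MP_0447a2_lc

/-- number of `n < N` with fractional part of `x n` in `[s,t)` -/
noncomputable def cnt (x : ℕ → ℝ) (s t : ℝ) (N : ℕ) : ℕ :=
  ((Finset.range N).filter (fun n => s ≤ Int.fract (x n) ∧ Int.fract (x n) < t)).card

/-- uniform distribution modulo one -/
def UD (x : ℕ → ℝ) : Prop :=
  ∀ s t : ℝ, 0 ≤ s → s ≤ t → t ≤ 1 →
    Tendsto (fun N : ℕ => (cnt x s t N : ℝ) / (N : ℝ)) atTop (nhds (t - s))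

lemma cnt_add (x : ℕ → ℝ) {r s t : ℝ} (hrs : r ≤ s) (hst : s ≤ t) (N : ℕ) :
    cnt x r s N + cnt x s t N = cnt x r t N := by
  unfold cnt
  rw [← Finset.card_union_of_disjoint]
  · congr 1
    ext n
    simp only [Finset.mem_union, Finset.mem_filter]
    constructor
    · rintro (⟨h1, h2, h3⟩ | ⟨h1, h2, h3⟩)
      · exact ⟨h1, h2, lt_of_lt_of_le h3 hst⟩
      · exact ⟨h1, le_trans hrs h2, h3⟩
    · rintro ⟨h1, h2, h3⟩
      rcases lt_or_ge (Int.fract (x n)) s with h | h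
      · exact Or.inl ⟨h1, h2, h⟩
      · exact Or.inr ⟨h1, h, h3⟩
  · rw [Finset.disjoint_left]
    intro n h1 h2
    simp only [Finset.mem_filter] at h1 h2
    linarith [h1.2.2, h2.2.1]

lemma cnt_zero_one (x : ℕ → ℝ) (N : ℕ) : cnt x 0 1 N = N := by
  unfold cnt
  rw [Finset.filter_true_of_mem]
  · simp
  · intro n _
    exact ⟨Int.fract_nonneg _, Int.fract_lt_one _⟩

lemma UD_of_lower (x : ℕ → ℝ)
    (h : ∀ s t : ℝ, 0 ≤ s → s ≤ t → t ≤ 1 → ∀ ε : ℝ, 0 < ε →
      ∀ᶠ M : ℕ in atTop, (t - s - ε) * M ≤ cnt x s t M) : UD x := by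
  intro s t hs hst ht
  rw [Metric.tendsto_nhds]
  intro ε hε
  have h1 := h s t hs hst ht (ε / 3) (by positivity)
  have h2 := h 0 s le_rfl hs (le_trans hst ht) (ε / 3) (by positivity)
  have h3 := h t 1 (le_trans hs hst) ht le_rfl (ε / 3) (by positivity)
  filter_upwards [h1, h2, h3, eventually_gt_atTop 0] with M a1 a2 a3 hM
  have hM' : (0 : ℝ) < M := by exact_mod_cast hM
  have e1 := cnt_add x hs hst M
  have e2 := cnt_add x (le_trans hs hst) ht M
  have e3 := cnt_zero_one x M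
  have e4 : (cnt x 0 s M : ℝ) + cnt x s t M + cnt x t 1 M = M := by
    have : cnt x 0 s M + cnt x s t M + cnt x t 1 M = M := by omega
    exact_mod_cast this
  rw [Real.dist_eq, abs_lt]
  constructor
  · have : t - s - ε / 3 ≤ (cnt x s t M : ℝ) / M := by
      rw [le_div_iff₀ hM']; exact a1
    linarith
  · have : (cnt x s t M : ℝ) / M ≤ t - s + 2 * ε / 3 := by
      rw [div_le_iff₀ hM']; nlinarith
    linarith

/-- trapezoid bump -/
noncomputable def trap (s t η u : ℝ) : ℝ := max 0 (min 1 (min ((u - s) / η) ((t - u) / η)))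

lemma trap_nonneg (s t η u : ℝ) : 0 ≤ trap s t η u := le_max_left _ _

lemma trap_le_one (s t η u : ℝ) : trap s t η u ≤ 1 := max_le zero_le_one (min_le_left _ _)

lemma trap_eq_zero {s t η u : ℝ} (hη : 0 < η) (h : u ≤ s ∨ t ≤ u) : trap s t η u = 0 := by
  unfold trap
  apply max_eq_left
  apply le_trans (min_le_right _ _)
  rcases h with h | h
  · exact le_trans (min_le_left _ _) (div_nonpos_of_nonpos_of_nonneg (by linarith) hη.le)
  · exact le_trans (min_le_right _ _) (div_nonpos_of_nonpos_of_nonneg (by linarith) hη.le)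

lemma trap_eq_one {s t η u : ℝ} (hη : 0 < η) (h1 : s + η ≤ u) (h2 : u ≤ t - η) :
    trap s t η u = 1 := by
  unfold trap
  have a1 : 1 ≤ (u - s) / η := by rw [le_div_iff₀ hη]; linarith
  have a2 : 1 ≤ (t - u) / η := by rw [le_div_iff₀ hη]; linarith
  rw [min_eq_left (le_min a1 a2)]
  exact max_eq_right zero_le_one

lemma continuous_trap (s t η : ℝ) : Continuous (trap s t η) := by
  unfold trap
  fun_prop

lemma continuous_trap_fract {s t η : ℝ} (hη : 0 < η) (hs : 0 ≤ s) (ht : t ≤ 1) :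
    Continuous (fun z : ℝ => trap s t η (Int.fract z)) := by
  apply ContinuousOn.comp_fract'' (continuous_trap s t η).continuousOn
  rw [trap_eq_zero hη (Or.inl hs), trap_eq_zero hη (Or.inr ht)]

lemma sum_trap_le_cnt (x : ℕ → ℝ) {s t η : ℝ} (hη : 0 < η) (M : ℕ) :
    ∑ n ∈ Finset.range M, trap s t η (Int.fract (x n)) ≤ cnt x s t M := by
  unfold cnt
  rw [Finset.card_filter]
  push_cast
  apply Finset.sum_le_sum
  intro n _
  split_ifs with h
  · exact trap_le_one _ _ _ _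
  · rw [trap_eq_zero hη]
    by_contra hc
    push Not at hc
    exact h ⟨hc.1.le, hc.2⟩

lemma cnt_le_sum_trap (x : ℕ → ℝ) {s t η : ℝ} (hη : 0 < η) (M : ℕ) :
    (cnt x (s + η) (t - η) M : ℝ) ≤ ∑ n ∈ Finset.range M, trap s t η (Int.fract (x n)) := by
  unfold cnt
  rw [Finset.card_filter]
  push_cast
  apply Finset.sum_le_sum
  intro n _
  split_ifs with h
  · rw [trap_eq_one hη h.1 h.2.le]
  · exact trap_nonneg _ _ _ _

lemma cnt_mono (x : ℕ → ℝ) {s t s' t' : ℝ} (hs : s ≤ s') (ht : t' ≤ t) (M : ℕ) :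
    cnt x s' t' M ≤ cnt x s t M := by
  unfold cnt
  apply Finset.card_le_card
  intro n hn
  simp only [Finset.mem_filter] at hn ⊢
  exact ⟨hn.1, le_trans hs hn.2.1, lt_of_lt_of_le hn.2.2 ht⟩

lemma UD_iff_trap (x : ℕ → ℝ) :
    UD x ↔ ∀ s t η : ℚ, 0 ≤ s → t ≤ 1 → 0 < η →
      ∀ᶠ M : ℕ in atTop, ((t : ℝ) - s - 3 * η) * M ≤
        ∑ n ∈ Finset.range M, trap s t η (Int.fract (x n)) := by
  constructor
  · intro h s t η hs ht hη
    have hs' : (0 : ℝ) ≤ s := by exact_mod_cast hs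
    have ht' : (t : ℝ) ≤ 1 := by exact_mod_cast ht
    have hη' : (0 : ℝ) < η := by exact_mod_cast hη
    rcases le_or_gt ((s : ℝ) + η) (t - η) with hle | hlt
    · have := h (s + η) (t - η) (by linarith) hle (by linarith)
      have h2 := this.eventually (lt_mem_nhds (show (t : ℝ) - s - 3 * η < t - η - (s + η) by linarith))
      filter_upwards [h2, eventually_gt_atTop 0] with M a1 hM
      have hM' : (0 : ℝ) < M := by exact_mod_cast hM
      rw [lt_div_iff₀ hM'] at a1
      exact le_trans a1.le (cnt_le_sum_trap x hη' M)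
    · refine Eventually.of_forall fun M => ?_
      have : 0 ≤ ∑ n ∈ Finset.range M, trap s t η (Int.fract (x n)) :=
        Finset.sum_nonneg fun n _ => trap_nonneg _ _ _ _
      have h0 : (0 : ℝ) ≤ M := Nat.cast_nonneg M
      nlinarith
  · intro h
    apply UD_of_lower
    intro s t hs hst ht ε hε
    obtain ⟨s', hs1, hs2⟩ := exists_rat_btwn (show s < s + ε / 5 by linarith)
    obtain ⟨t', ht1, ht2⟩ := exists_rat_btwn (show t - ε / 5 < t by linarith)
    obtain ⟨η, hη1, hη2⟩ := exists_rat_btwn (show 0 < ε / 5 by linarith)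
    have := h s' t' η (by exact_mod_cast (le_trans hs hs1.le)) (by exact_mod_cast (le_trans ht2.le ht))
      (by exact_mod_cast hη1)
    filter_upwards [this] with M hM
    have a1 := sum_trap_le_cnt x (s := s') (t := t') hη1 M
    have a2 : (cnt x s' t' M : ℝ) ≤ cnt x s t M := by exact_mod_cast cnt_mono x hs1.le ht2.le M
    have h0 : (0 : ℝ) ≤ M := Nat.cast_nonneg M
    nlinarith

/-- The set of parameters giving a u.d. sequence is Pi^0_3. -/
lemma UD_pi03 {X : Type*} [TopologicalSpace X] (x : X → ℕ → ℝ)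
    (hx : ∀ n, Continuous (fun ξ => x ξ n)) :
    ∃ F : ℕ → ℕ → Set X, (∀ i j, IsClosed (F i j)) ∧ {ξ | UD (x ξ)} = ⋂ i, ⋃ j, F i j := by
  obtain ⟨e, he⟩ := exists_surjective_nat (ℚ × ℚ × ℚ)
  refine ⟨fun i j => {ξ | 0 ≤ (e i).1 → (e i).2.1 ≤ 1 → 0 < (e i).2.2 → ∀ M : ℕ, j ≤ M →
    (((e i).2.1 : ℝ) - (e i).1 - 3 * (e i).2.2) * M ≤
      ∑ n ∈ Finset.range M, trap (e i).1 (e i).2.1 (e i).2.2 (Int.fract (x ξ n))}, ?_, ?_⟩
  · intro i j
    simp only [Set.ofPred_forall]
    refine isClosed_iInter fun h1 => isClosed_iInter fun h2 => isClosed_iInter fun h3 =>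
      isClosed_iInter fun M => isClosed_iInter fun _ => ?_
    apply isClosed_le continuous_const
    apply continuous_finsetSum
    intro n _
    exact (continuous_trap_fract (by exact_mod_cast h3) (by exact_mod_cast h1)
      (by exact_mod_cast h2)).comp (hx n)
  · ext ξ
    simp only [Set.mem_ofPred_eq, Set.mem_iInter, Set.mem_iUnion, UD_iff_trap]
    constructor
    · intro h i
      by_cases h1 : 0 ≤ (e i).1 ∧ (e i).2.1 ≤ 1 ∧ 0 < (e i).2.2
      · obtain ⟨j, hj⟩ := eventually_atTop.1 (h _ _ _ h1.1 h1.2.1 h1.2.2)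
        exact ⟨j, fun _ _ _ M hM => hj M hM⟩
      · exact ⟨0, fun a b c => absurd ⟨a, b, c⟩ h1⟩
    · intro h s t η hs ht hη
      obtain ⟨i, hi⟩ := he (s, t, η)
      obtain ⟨j, hj⟩ := h i
      rw [hi] at hj
      exact eventually_atTop.2 ⟨j, fun M hM => hj hs ht hη M hM⟩

end Pool.Agent.Lib.MP_0447a2_lc
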