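import Mathlib

set_option autoImplicit false

open Filter Topology

namespace Pool.Agent.Lib.MP_0447a2_lc

/-- Every Pi^0_3 subset of Baire space reduces continuously to the set of sequences tending
to infinity. -/
theorem reduce_to_C3 (G : ℕ → ℕ → Set (ℕ → ℕ)) (hG : ∀ i j, IsClosed (G i j)) :
    ∃ Y : (ℕ → ℕ) → (ℕ → ℕ), Continuous Y ∧
      ∀ x, x ∈ (⋂ i, ⋃ j, G i j) ↔ Tendsto (Y x) atTop atTop := by
  let J : ℕ → ℕ → (ℕ → ℕ) → ℕ := fun i n x =>
    sInf {j | j = n ∨ (PiNat.cylinder x n ∩ G i j).Nonempty}
  let Y : (ℕ → ℕ) → (ℕ → ℕ) := fun x n => sInf {i | i = n ∨ J i (n + 1) x ≠ J i n x}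
  have hmiss : ∀ i j x, x ∉ G i j → ∀ᶠ n in atTop, ¬ (PiNat.cylinder x n ∩ G i j).Nonempty := by
    intro i j x hx
    obtain ⟨v, ⟨z, n, rfl⟩, hv1, hv2⟩ :=
      (PiNat.isTopologicalBasis_cylinders (fun _ : ℕ => ℕ)).exists_subset_of_mem_open
        (show x ∈ (G i j)ᶜ from hx) (hG i j).isOpen_compl
    rw [PiNat.mem_cylinder_iff_eq] at hv1
    filter_upwards [eventually_ge_atTop n] with m hm
    rintro ⟨w, hw1, hw2⟩
    have : w ∈ PiNat.cylinder z n := by
      rw [← hv1]; exact PiNat.cylinder_anti x hm hw1
    exact hv2 this hw2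
  have hmiss' : ∀ i K x, (∀ j < K, x ∉ G i j) → ∀ᶠ n in atTop, K ≤ J i n x := by
    intro i K x hx
    have h1 : ∀ᶠ n in atTop, ∀ j ∈ Finset.range K, ¬ (PiNat.cylinder x n ∩ G i j).Nonempty := by
      rw [eventually_all_finset]
      intro j hj
      exact hmiss i j x (hx j (Finset.mem_range.1 hj))
    filter_upwards [h1, eventually_ge_atTop K] with n h1 h2
    have hne : {j | j = n ∨ (PiNat.cylinder x n ∩ G i j).Nonempty}.Nonempty := ⟨n, Or.inl rfl⟩
    have hmem := Nat.sInf_mem hne
    by_contra hcon
    push Not at hcon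
    rcases hmem with h | h
    · have : J i n x = n := h
      omega
    · exact h1 _ (Finset.mem_range.2 hcon) h
  refine ⟨Y, ?_, ?_⟩
  · apply continuous_pi
    intro n
    apply IsLocallyConstant.continuous
    rw [IsLocallyConstant.iff_exists_open]
    intro x
    refine ⟨PiNat.cylinder x (n + 1), PiNat.isOpen_cylinder _ x (n + 1),
      PiNat.self_mem_cylinder x (n + 1), ?_⟩
    intro x' hx'
    have h1 : PiNat.cylinder x' (n + 1) = PiNat.cylinder x (n + 1) :=
      PiNat.mem_cylinder_iff_eq.1 hx'
    have h2 : PiNat.cylinder x' n = PiNat.cylinder x n :=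
      PiNat.mem_cylinder_iff_eq.1 (PiNat.cylinder_anti x (Nat.le_succ n) hx')
    simp only [Y, J, h1, h2]
  · intro x
    simp only [Set.mem_iInter, Set.mem_iUnion]
    constructor
    · intro hx
      have hconst : ∀ i, ∀ᶠ n in atTop, J i (n + 1) x = J i n x := by
        intro i
        classical
        have h1 : ∀ᶠ n in atTop, J i n x = Nat.find (hx i) := by
          filter_upwards [hmiss' i (Nat.find (hx i)) x (fun j hj => Nat.find_min (hx i) hj)]
            with n hn
          apply le_antisymm _ hn
          apply Nat.sInf_le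
          exact Or.inr ⟨x, PiNat.self_mem_cylinder x n, Nat.find_spec (hx i)⟩
        obtain ⟨n0, hn0⟩ := eventually_atTop.1 h1
        filter_upwards [eventually_ge_atTop n0] with n hn
        rw [hn0 n hn, hn0 (n + 1) (by omega)]
      rw [tendsto_atTop]
      intro K
      have h1 : ∀ᶠ n in atTop, ∀ i ∈ Finset.range K, J i (n + 1) x = J i n x := by
        rw [eventually_all_finset]
        intro i _
        exact hconst i
      filter_upwards [h1, eventually_ge_atTop K] with n h1 h2
      have hne : {i | i = n ∨ J i (n + 1) x ≠ J i n x}.Nonempty := ⟨n, Or.inl rfl⟩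
      have hmem := Nat.sInf_mem hne
      by_contra hcon
      push Not at hcon
      rcases hmem with h | h
      · have : Y x n = n := h
        omega
      · exact h (h1 _ (Finset.mem_range.2 hcon))
    · intro hY i
      by_contra hcon
      push Not at hcon
      obtain ⟨n0, hn0⟩ := eventually_atTop.1 ((tendsto_atTop.1 hY) (i + 1))
      have h1 : ∀ n ≥ n0, J i (n + 1) x = J i n x := by
        intro n hn
        by_contra hne
        have : Y x n ≤ i := Nat.sInf_le (Or.inr hne)
        have := hn0 n hn
        omega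
      have h2 : ∀ n ≥ n0, J i n x = J i n0 x := by
        intro n hn
        induction n, hn using Nat.le_induction with
        | base => rfl
        | succ n hn ih => rw [h1 n hn, ih]
      obtain ⟨n, h3, h4⟩ := ((hmiss' i (J i n0 x + 1) x (fun j _ => hcon j)).and
        (eventually_ge_atTop n0)).exists
      have := h2 n h4
      omega

end Pool.Agent.Lib.MP_0447a2_lc
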