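import Pool.Agent.Lib.MP_0447a2_lc.Weyl

set_option autoImplicit false

open Filter Topology

namespace Pool.Agent.Lib.MP_0447a2_lc

/-- avoidance step -/
lemma stepA {α : ℝ} (hα : 1 < |α|) :
    ∃ (c δ : ℝ) (D : ℕ), 0 < c ∧ 0 < δ ∧ δ ≤ 1 ∧ 1 ≤ D ∧
      ∀ θ : ℝ, ∃ θ' : ℝ, |θ' - θ| + c / |α| ^ D ≤ c ∧
        ∀ η : ℝ, |η - θ'| ≤ c / |α| ^ D → ∀ j < D, δ ≤ Int.fract (η * α ^ j) := by
  have hβ : 0 < |α| := by linarith
  obtain ⟨D, hD1, hD⟩ : ∃ D : ℕ, 1 ≤ D ∧ 4 * (D : ℝ) ≤ |α| ^ D := by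
    have h := (tendsto_pow_const_div_const_pow_of_one_lt 1 hα).eventually
      (gt_mem_nhds (show (0 : ℝ) < 1 / 4 by norm_num))
    obtain ⟨D, h1, h2⟩ := (h.and (eventually_ge_atTop 1)).exists
    refine ⟨D, h2, ?_⟩
    rw [pow_one, div_lt_iff₀ (by positivity)] at h1
    linarith
  have hD' : (1 : ℝ) ≤ D := by exact_mod_cast hD1
  set B := |α| ^ D with hB
  have hB4 : 4 ≤ B := by linarith
  have hBpos : 0 < B := by linarith
  set c := 1 / (4 * B) with hc
  have hcpos : 0 < c := by positivity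
  have hcB : c * B = 1 / 4 := by rw [hc]; field_simp
  have hc1 : c ≤ 1 / 16 := by
    rw [hc]; apply one_div_le_one_div_of_le (by norm_num); linarith
  have hδ : c / (4 * D) ≤ 1 / 4 := by
    rw [div_le_iff₀ (by positivity)]; nlinarith
  have hcB2 : c / B ≤ c / (4 * D) := by
    apply div_le_div_of_nonneg_left hcpos.le (by positivity) hD
  refine ⟨c, c / (4 * D), D, hcpos, by positivity, by linarith, hD1, ?_⟩
  intro θ
  obtain ⟨m, hm, hfar⟩ : ∃ m ∈ Finset.range (D + 1), ∀ j < D,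
      c / (2 * D) ≤ |(θ - c / 2 + m * (c / D)) - round (θ * α ^ j) / α ^ j| := by
    by_contra hcon
    push Not at hcon
    choose! f hf1 hf2 using hcon
    obtain ⟨m, hm, m', hm', hne, heq⟩ := Finset.exists_ne_map_eq_of_card_lt_of_maps_to
      (s := Finset.range (D + 1)) (t := Finset.range D) (by simp) (f := f)
      (fun m hm => by simpa using hf1 m (by simpa using hm))
    have a1 := hf2 m hm
    have a2 := hf2 m' hm'
    rw [heq] at a1
    have a3 : |((m : ℝ) - m') * (c / D)| < c / D := by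
      have : ((m : ℝ) - m') * (c / D) =
          ((θ - c / 2 + m * (c / D)) - round (θ * α ^ f m') / α ^ f m') -
          ((θ - c / 2 + m' * (c / D)) - round (θ * α ^ f m') / α ^ f m') := by ring
      rw [this]
      have e : c / D = c / (2 * D) + c / (2 * D) := by field_simp; ring
      calc _ ≤ _ := abs_sub _ _
        _ < c / (2 * D) + c / (2 * D) := add_lt_add a1 a2
        _ = c / D := e.symm
    have a4 : (1 : ℝ) ≤ |(m : ℝ) - m'| := by
      have : (1 : ℤ) ≤ |(m : ℤ) - m'| := Int.one_le_abs (by omega)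
      exact_mod_cast this
    have hcD : 0 < c / D := by positivity
    rw [abs_mul, abs_of_pos hcD] at a3
    nlinarith
  have hm' : (m : ℝ) ≤ D := by
    have : m ≤ D := by simpa [Nat.lt_succ_iff] using hm
    exact_mod_cast this
  have hclose : |(θ - c / 2 + m * (c / D)) - θ| ≤ c / 2 := by
    have h0 : 0 ≤ (m : ℝ) * (c / D) := by positivity
    have h1 : (m : ℝ) * (c / D) ≤ c := by
      calc (m : ℝ) * (c / D) ≤ D * (c / D) := by gcongr
        _ = c := by field_simp
    rw [abs_le]; constructor <;> linarith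
  have hcB3 : c / B ≤ c / 2 := div_le_div_of_nonneg_left hcpos.le (by norm_num) (by linarith)
  refine ⟨θ - c / 2 + m * (c / D), by linarith, ?_⟩
  intro η hη j hj
  by_contra hlt
  push Not at hlt
  have hηθ : |η - θ| ≤ c := by
    have : η - θ = (η - (θ - c / 2 + m * (c / D))) + ((θ - c / 2 + m * (c / D)) - θ) := by ring
    rw [this]
    exact le_trans (abs_add_le _ _) (by linarith)
  have hj1 : 1 ≤ |α| ^ j := one_le_pow₀ hα.le
  have hjD : |α| ^ j ≤ B := pow_le_pow_right₀ hα.le hj.le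
  have hαj : α ^ j ≠ 0 := pow_ne_zero _ (abs_pos.1 hβ)
  have b1 : |η * α ^ j - θ * α ^ j| ≤ 1 / 4 := by
    rw [← sub_mul, abs_mul, abs_pow]
    calc |η - θ| * |α| ^ j ≤ c * B := by gcongr
      _ = 1 / 4 := hcB
  have b2 : |η * α ^ j - ⌊η * α ^ j⌋| < c / (4 * D) := by
    rw [Int.self_sub_floor, abs_of_nonneg (Int.fract_nonneg _)]; exact hlt
  have b3 := abs_sub_round (θ * α ^ j)
  have b4 : ⌊η * α ^ j⌋ = round (θ * α ^ j) := by
    have : |((⌊η * α ^ j⌋ - round (θ * α ^ j) : ℤ) : ℝ)| < 1 := by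
      push_cast
      rw [abs_lt] at b2 ⊢
      rw [abs_le] at b1 b3
      constructor <;> linarith
    have h2 : |⌊η * α ^ j⌋ - round (θ * α ^ j)| < 1 := by exact_mod_cast this
    have := Int.abs_lt_one_iff.1 h2
    omega
  have b5 : |η - round (θ * α ^ j) / α ^ j| < c / (4 * D) := by
    have : η - round (θ * α ^ j) / α ^ j = (η * α ^ j - ⌊η * α ^ j⌋) / α ^ j := by
      rw [b4]; field_simp
    rw [this, abs_div, abs_pow]
    exact lt_of_le_of_lt (div_le_self (abs_nonneg _) hj1) b2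
  have b6 := hfar j hj
  have : (θ - c / 2 + m * (c / D)) - round (θ * α ^ j) / α ^ j =
      (η - round (θ * α ^ j) / α ^ j) - (η - (θ - c / 2 + m * (c / D))) := by ring
  rw [this] at b6
  have b7 := abs_sub (η - round (θ * α ^ j) / α ^ j) (η - (θ - c / 2 + m * (c / D)))
  have e : c / (2 * D) = c / (4 * D) + c / (4 * D) := by field_simp; ring
  linarith

lemma ee_add (a b : ℝ) : ee (a + b) = ee a * ee b := by
  unfold ee
  rw [← Complex.exp_add]; congr 1; push_cast; ring

lemma ee_re (a : ℝ) : (ee a).re = Real.cos (2 * Real.pi * a) := by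
  unfold ee
  have : 2 * (Real.pi : ℂ) * Complex.I * a = ((2 * Real.pi * a : ℝ) : ℂ) * Complex.I := by
    push_cast; ring
  rw [this, Complex.exp_ofReal_mul_I_re]

lemma norm_ee_sub (a b : ℝ) : ‖ee a - ee b‖ ≤ 2 * Real.pi * |a - b| := by
  have h1 : ee a - ee b = ee b * (ee (a - b) - 1) := by
    rw [mul_sub, ← ee_add]; simp
  rw [h1, norm_mul, norm_ee, one_mul]
  have h2 : ee (a - b) = Complex.exp (Complex.I * ((2 * Real.pi * (a - b) : ℝ) : ℂ)) := by
    unfold ee; congr 1; push_cast; ring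
  rw [h2]
  refine le_trans Real.norm_exp_I_mul_ofReal_sub_one_le ?_
  rw [Real.norm_eq_abs, abs_mul, abs_of_pos (by positivity : 0 < 2 * Real.pi)]

lemma norm_sq_sum_ee (s : Finset ℕ) (a : ℕ → ℝ) :
    ‖∑ j ∈ s, ee (a j)‖ ^ 2 = ∑ i ∈ s, ∑ j ∈ s, Real.cos (2 * Real.pi * (a i - a j)) := by
  have h1 : ((‖∑ j ∈ s, ee (a j)‖ ^ 2 : ℝ) : ℂ) =
      ∑ i ∈ s, ∑ j ∈ s, ee (a i - a j) := by
    rw [← Complex.normSq_eq_norm_sq, ← Complex.mul_conj, map_sum, Finset.sum_mul_sum]
    refine Finset.sum_congr rfl fun i _ => Finset.sum_congr rfl fun j _ => ?_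
    rw [conj_ee, ← ee_add, sub_eq_add_neg]
  have h2 := congrArg Complex.re h1
  rw [Complex.ofReal_re, Complex.re_sum] at h2
  rw [h2]
  refine Finset.sum_congr rfl fun i _ => ?_
  rw [Complex.re_sum]
  exact Finset.sum_congr rfl fun j _ => ee_re _

lemma integral_cos_le {k : ℝ} (hk : k ≠ 0) (a b : ℝ) :
    ∫ x in a..b, Real.cos (k * x) ≤ 2 / |k| := by
  rw [intervalIntegral.integral_comp_mul_left (fun x => Real.cos x) hk, integral_cos, smul_eq_mul]
  refine le_trans (le_abs_self _) ?_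
  rw [abs_mul, abs_inv, div_eq_mul_inv, mul_comm]
  gcongr
  have h1 := Real.abs_sin_le_one (k * b)
  have h2 := Real.abs_sin_le_one (k * a)
  exact le_trans (abs_sub _ _) (by linarith)

lemma pow_sub_pow_ge {α : ℝ} (hα : 1 < |α|) {i j : ℕ} (hij : i ≠ j) :
    (|α| - 1) / |α| * |α| ^ i ≤ |α ^ i - α ^ j| := by
  have hβ : 0 < |α| := by linarith
  have key : ∀ i j : ℕ, j < i → (|α| - 1) / |α| * |α| ^ i ≤ |α ^ i - α ^ j| := by
    intro i j hji
    obtain ⟨n, rfl⟩ : ∃ n, i = n + 1 := ⟨i - 1, by omega⟩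
    have h1 : |α| ^ j ≤ |α| ^ n := pow_le_pow_right₀ hα.le (by omega)
    have h2 : |α ^ (n + 1)| - |α ^ j| ≤ |α ^ (n + 1) - α ^ j| := abs_sub_abs_le_abs_sub _ _
    rw [abs_pow, abs_pow] at h2
    have h3 : (|α| - 1) / |α| * |α| ^ (n + 1) = |α| ^ (n + 1) - |α| ^ n := by
      field_simp; ring
    linarith
  rcases lt_or_gt_of_ne hij with h | h
  · have h1 := key j i h
    rw [abs_sub_comm] at h1
    refine le_trans ?_ h1
    have : 0 ≤ (|α| - 1) / |α| := div_nonneg (by linarith) hβ.le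
    gcongr
    exact hα.le
  · exact key i j h

lemma sum_inv_pow_le {β : ℝ} (hβ : 1 < β) (M : ℕ) :
    ∑ i ∈ Finset.range M, 1 / β ^ i ≤ β / (β - 1) := by
  have h0 : 0 < β := by linarith
  have : ∀ M : ℕ, ∑ i ∈ Finset.range M, 1 / β ^ i = β / (β - 1) * (1 - 1 / β ^ M) := by
    intro M
    have h1 : β - 1 ≠ 0 := by linarith
    induction M with
    | zero => simp
    | succ n ih =>
      rw [Finset.sum_range_succ, ih]
      field_simp; ring
  rw [this]
  have h1 : 0 ≤ β / (β - 1) := div_nonneg h0.le (by linarith)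
  have h2 : 0 ≤ 1 / β ^ M := by positivity
  nlinarith

lemma sum_pow_le {β : ℝ} (hβ : 1 < β) (M : ℕ) :
    ∑ i ∈ Finset.range M, β ^ i ≤ β ^ M / (β - 1) := by
  rw [geom_sum_eq hβ.ne']
  gcongr
  linarith

lemma second_moment {α : ℝ} (hα : 1 < |α|) (M : ℕ) {h : ℕ} (hh : 1 ≤ h) {a b : ℝ} (hab : a ≤ b) :
    ∫ η in a..b, ‖∑ j ∈ Finset.range M, ee (h * (η * α ^ j))‖ ^ 2 ≤
      M * ((b - a) + (|α| / (|α| - 1)) ^ 2) := by
  have hβ : 0 < |α| := by linarith
  have hβ1 : 0 < |α| - 1 := by linarith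
  have hh' : (1 : ℝ) ≤ h := by exact_mod_cast hh
  simp only [norm_sq_sum_ee]
  have hint : ∀ i j : ℕ, IntervalIntegrable
      (fun η : ℝ => Real.cos (2 * Real.pi * (h * (η * α ^ i) - h * (η * α ^ j))))
      MeasureTheory.volume a b := by
    intro i j
    apply Continuous.intervalIntegrable
    fun_prop
  rw [intervalIntegral.integral_finsetSum (fun i _ => by
    apply Continuous.intervalIntegrable
    fun_prop)]
  have hb : ∀ i j : ℕ, ∫ η in a..b, Real.cos (2 * Real.pi * (h * (η * α ^ i) - h * (η * α ^ j))) ≤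
      (if i = j then b - a else 0) + |α| / (|α| - 1) * (1 / |α| ^ i) := by
    intro i j
    have hp : 0 ≤ |α| / (|α| - 1) * (1 / |α| ^ i) := by positivity
    split_ifs with hij
    · subst hij
      simp only [sub_self, mul_zero, Real.cos_zero, intervalIntegral.integral_const, smul_eq_mul,
        mul_one]
      linarith
    · have h1 := pow_sub_pow_ge hα hij
      have h2 : 0 < (|α| - 1) / |α| * |α| ^ i := by positivity
      have h3 : 0 < |α ^ i - α ^ j| := lt_of_lt_of_le h2 h1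
      have h4 : α ^ i - α ^ j ≠ 0 := abs_pos.1 h3
      have hk : 2 * Real.pi * h * (α ^ i - α ^ j) ≠ 0 := by
        have : (h : ℝ) ≠ 0 := by linarith
        have := Real.pi_ne_zero
        positivity
      have h5 := integral_cos_le hk a b
      have e : (fun η : ℝ => Real.cos (2 * Real.pi * (h * (η * α ^ i) - h * (η * α ^ j)))) =
          fun η : ℝ => Real.cos (2 * Real.pi * h * (α ^ i - α ^ j) * η) := by
        funext η; congr 1; ring
      rw [e, zero_add]
      refine le_trans h5 ?_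
      have h6 : |2 * Real.pi * h * (α ^ i - α ^ j)| = 2 * Real.pi * h * |α ^ i - α ^ j| := by
        rw [abs_mul, abs_of_pos (by positivity)]
      rw [h6]
      have h7 : |α| / (|α| - 1) * (1 / |α| ^ i) = 1 / ((|α| - 1) / |α| * |α| ^ i) := by
        field_simp
      rw [h7, div_le_div_iff₀ (by positivity) h2]
      have h8 : 1 ≤ Real.pi * h := by nlinarith [Real.pi_gt_three]
      nlinarith
  calc ∑ i ∈ Finset.range M, ∫ η in a..b, ∑ j ∈ Finset.range M,
        Real.cos (2 * Real.pi * (h * (η * α ^ i) - h * (η * α ^ j)))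
      ≤ ∑ i ∈ Finset.range M, ((b - a) + M * (|α| / (|α| - 1) * (1 / |α| ^ i))) := by
        apply Finset.sum_le_sum
        intro i hi
        rw [intervalIntegral.integral_finsetSum (fun j _ => hint i j)]
        refine le_trans (Finset.sum_le_sum fun j _ => hb i j) ?_
        rw [Finset.sum_add_distrib, Finset.sum_ite_eq]
        simp [hi]
    _ = M * (b - a) + M * (|α| / (|α| - 1) * ∑ i ∈ Finset.range M, 1 / |α| ^ i) := by
        rw [Finset.sum_add_distrib, ← Finset.mul_sum, ← Finset.mul_sum]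
        simp [mul_sub]
    _ ≤ M * (b - a) + M * (|α| / (|α| - 1) * (|α| / (|α| - 1))) := by
        gcongr
        exact sum_inv_pow_le hα M
    _ = _ := by ring

lemma continuous_ee : Continuous ee := by
  unfold ee
  fun_prop

/-- equidistribution step -/
lemma stepE {α : ℝ} (hα : 1 < |α|) {c : ℝ} (hc : 0 < c) (H : ℕ) {ε : ℝ} (hε : 0 < ε) :
    ∃ M : ℕ, 1 ≤ M ∧ ∀ θ : ℝ, ∃ θ' : ℝ, |θ' - θ| + c / |α| ^ M ≤ c ∧
      ∀ η : ℝ, |η - θ'| ≤ c / |α| ^ M → ∀ h : ℕ, 1 ≤ h → h ≤ H →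
        ‖∑ j ∈ Finset.range M, ee (h * (η * α ^ j))‖ ≤ ε * M := by
  have hβ : 0 < |α| := by linarith
  have hβ1 : 0 < |α| - 1 := by linarith
  set K := (|α| / (|α| - 1)) ^ 2 with hK
  have hK0 : 0 ≤ K := by positivity
  set C := H * (c + K) / c with hC
  set V := 2 * Real.pi * H * (c / (|α| - 1)) with hV
  obtain ⟨M, hM1, hM2, hM3, hM4⟩ : ∃ M : ℕ, 1 ≤ M ∧ 2 ≤ |α| ^ M ∧ 4 * C / ε ^ 2 ≤ M ∧
      2 * V / ε ≤ M := by
    have a1 := (tendsto_pow_atTop_atTop_of_one_lt hα).eventually (eventually_ge_atTop 2)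
    have a2 := (tendsto_natCast_atTop_atTop (R := ℝ)).eventually (eventually_ge_atTop (4 * C / ε ^ 2))
    have a3 := (tendsto_natCast_atTop_atTop (R := ℝ)).eventually (eventually_ge_atTop (2 * V / ε))
    obtain ⟨M, hM⟩ := ((eventually_ge_atTop 1).and (a1.and (a2.and a3))).exists
    exact ⟨M, hM⟩
  have hM0 : (0 : ℝ) < M := by exact_mod_cast hM1
  refine ⟨M, hM1, fun θ => ?_⟩
  let F : ℝ → ℝ := fun η => ∑ h ∈ Finset.Icc 1 H, ‖∑ j ∈ Finset.range M, ee (h * (η * α ^ j))‖ ^ 2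
  have hcont : ∀ h : ℕ, Continuous
      (fun η : ℝ => ‖∑ j ∈ Finset.range M, ee (h * (η * α ^ j))‖ ^ 2) := by
    intro h
    have := continuous_ee
    fun_prop
  have hF : Continuous F := continuous_finsetSum _ fun h _ => hcont h
  have hab : θ - c / 2 ≤ θ + c / 2 := by linarith
  obtain ⟨θ', hθ', hmin⟩ := (isCompact_Icc (a := θ - c / 2) (b := θ + c / 2)).exists_isMinOn
    (Set.nonempty_Icc.2 hab) hF.continuousOn
  have h1 : F θ' * c ≤ H * (M * (c + K)) := by
    have b1 : ∫ _ in (θ - c / 2)..(θ + c / 2), F θ' ≤ ∫ η in (θ - c / 2)..(θ + c / 2), F η :=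
      intervalIntegral.integral_mono_on hab (continuous_const.intervalIntegrable _ _)
        (hF.intervalIntegrable _ _) fun η hη => hmin hη
    rw [intervalIntegral.integral_const, smul_eq_mul] at b1
    have b2 : ∫ η in (θ - c / 2)..(θ + c / 2), F η ≤ H * (M * (c + K)) := by
      simp only [F]
      rw [intervalIntegral.integral_finsetSum (fun h _ => (hcont h).intervalIntegrable _ _)]
      calc _ ≤ ∑ h ∈ Finset.Icc 1 H, (M * (c + K) : ℝ) := by
            apply Finset.sum_le_sum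
            intro h hh
            have := second_moment hα M (Finset.mem_Icc.1 hh).1 hab
            have e : θ + c / 2 - (θ - c / 2) = c := by ring
            rw [e] at this
            exact this
        _ = _ := by simp
    have e : θ + c / 2 - (θ - c / 2) = c := by ring
    rw [e] at b1
    linarith
  have h2 : F θ' ≤ C * M := by
    rw [hC, div_mul_eq_mul_div, le_div_iff₀ hc]; linarith
  have h3 : c / |α| ^ M ≤ c / 2 := div_le_div_of_nonneg_left hc.le (by norm_num) hM2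
  have h4 : |θ' - θ| ≤ c / 2 := by
    rw [abs_le]; constructor <;> linarith [hθ'.1, hθ'.2]
  refine ⟨θ', by linarith, ?_⟩
  intro η hη h hh1 hhH
  have h5 : ‖∑ j ∈ Finset.range M, ee (h * (θ' * α ^ j))‖ ^ 2 ≤ F θ' :=
    Finset.single_le_sum (f := fun h : ℕ => ‖∑ j ∈ Finset.range M, ee (h * (θ' * α ^ j))‖ ^ 2)
      (fun _ _ => by positivity) (Finset.mem_Icc.2 ⟨hh1, hhH⟩)
  have h6 : ‖∑ j ∈ Finset.range M, ee (h * (θ' * α ^ j))‖ ≤ ε * M / 2 := by
    apply le_of_sq_le_sq _ (by positivity) |>.trans_eq rfl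
    rw [div_le_iff₀ (by positivity)] at hM3
    nlinarith
  have hH : (h : ℝ) ≤ H := by exact_mod_cast hhH
  have h7 : ‖∑ j ∈ Finset.range M, ee (h * (η * α ^ j)) -
      ∑ j ∈ Finset.range M, ee (h * (θ' * α ^ j))‖ ≤ V := by
    rw [← Finset.sum_sub_distrib]
    calc _ ≤ ∑ j ∈ Finset.range M, 2 * Real.pi * H * (c / |α| ^ M) * |α| ^ j := by
          apply norm_sum_le_of_le
          intro j _
          refine le_trans (norm_ee_sub _ _) ?_
          have : (h : ℝ) * (η * α ^ j) - h * (θ' * α ^ j) = h * (η - θ') * α ^ j := by ring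
          rw [this, abs_mul, abs_mul, abs_pow, Nat.abs_cast]
          have : (h : ℝ) * |η - θ'| * |α| ^ j ≤ H * (c / |α| ^ M) * |α| ^ j := by gcongr
          have hpi := Real.pi_pos
          nlinarith
      _ = 2 * Real.pi * H * (c / |α| ^ M) * ∑ j ∈ Finset.range M, |α| ^ j := by
          rw [Finset.mul_sum]
      _ ≤ 2 * Real.pi * H * (c / |α| ^ M) * (|α| ^ M / (|α| - 1)) := by
          have hpi := Real.pi_pos
          gcongr
          exact sum_pow_le hα M
      _ = V := by rw [hV]; field_simp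
  have h8 : V ≤ ε * M / 2 := by
    rw [div_le_iff₀ hε] at hM4
    linarith
  have h9 := norm_sub_norm_le (∑ j ∈ Finset.range M, ee (h * (η * α ^ j)))
    (∑ j ∈ Finset.range M, ee (h * (θ' * α ^ j)))
  linarith

end Pool.Agent.Lib.MP_0447a2_lc
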