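import Pool.Agent.Lib.MP_0447a2_lc.Basic

set_option autoImplicit false

open Filter Topology

namespace Pool.Agent.Lib.MP_0447a2_lc

/-- `ee t = exp(2 pi i t)` -/
noncomputable def ee (t : ℝ) : ℂ := Complex.exp (2 * Real.pi * Complex.I * t)

/-- Weyl sum -/
noncomputable def wsum (x : ℕ → ℝ) (h : ℕ) (N : ℕ) : ℂ := ∑ n ∈ Finset.range N, ee (h * x n)

lemma norm_ee (t : ℝ) : ‖ee t‖ = 1 := by
  unfold ee
  have : 2 * (Real.pi : ℂ) * Complex.I * t = ((2 * Real.pi * t : ℝ) : ℂ) * Complex.I := by
    push_cast; ring
  rw [this, Complex.norm_exp_ofReal_mul_I]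

lemma fourier_eq_ee (n : ℤ) (t : ℝ) : fourier n (t : AddCircle (1 : ℝ)) = ee (n * t) := by
  rw [fourier_coe_apply]
  unfold ee
  congr 1
  push_cast
  ring

lemma conj_ee (t : ℝ) : (starRingEnd ℂ) (ee t) = ee (-t) := by
  unfold ee
  rw [← Complex.exp_conj]
  congr 1
  simp [Complex.conj_ofReal, map_ofNat]

/-- averages of a continuous function on the circle -/
noncomputable def avg (x : ℕ → ℝ) (f : C(AddCircle (1 : ℝ), ℂ)) (N : ℕ) : ℂ :=
  (∑ n ∈ Finset.range N, f (x n : AddCircle (1 : ℝ))) / N

noncomputable def mean (f : C(AddCircle (1 : ℝ), ℂ)) : ℂ :=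
  ∫ u in (0 : ℝ)..1, f (u : AddCircle (1 : ℝ))

lemma cont_coe (f : C(AddCircle (1 : ℝ), ℂ)) :
    Continuous (fun u : ℝ => f (u : AddCircle (1 : ℝ))) :=
  f.continuous.comp (AddCircle.continuous_mk' 1)

lemma mean_sub (f g : C(AddCircle (1 : ℝ), ℂ)) : ‖mean f - mean g‖ ≤ ‖f - g‖ := by
  unfold mean
  rw [← intervalIntegral.integral_sub ((cont_coe f).intervalIntegrable _ _)
    ((cont_coe g).intervalIntegrable _ _)]
  have := intervalIntegral.norm_integral_le_of_norm_le_const (a := (0 : ℝ)) (b := 1) (C := ‖f - g‖)
    (f := fun u : ℝ => f (u : AddCircle (1 : ℝ)) - g (u : AddCircle (1 : ℝ)))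
    (fun u _ => (f - g).norm_coe_le_norm (u : AddCircle (1 : ℝ)))
  simpa using this

lemma avg_sub (x : ℕ → ℝ) (f g : C(AddCircle (1 : ℝ), ℂ)) (N : ℕ) :
    ‖avg x f N - avg x g N‖ ≤ ‖f - g‖ := by
  unfold avg
  rcases Nat.eq_zero_or_pos N with rfl | hN
  · simp
  have hN' : (0 : ℝ) < N := by exact_mod_cast hN
  rw [← sub_div, ← Finset.sum_sub_distrib, norm_div, Complex.norm_natCast, div_le_iff₀ hN']
  calc ‖∑ n ∈ Finset.range N, (f (x n : AddCircle (1 : ℝ)) - g (x n : AddCircle (1 : ℝ)))‖
      ≤ ∑ n ∈ Finset.range N, ‖f - g‖ := by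
        apply norm_sum_le_of_le
        intro n _
        exact (f - g).norm_coe_le_norm _
    _ = ‖f - g‖ * N := by simp [mul_comm]

lemma weyl_cont (x : ℕ → ℝ)
    (hx : ∀ h : ℕ, 1 ≤ h → Tendsto (fun N : ℕ => wsum x h N / N) atTop (nhds 0))
    (f : C(AddCircle (1 : ℝ), ℂ)) : Tendsto (avg x f) atTop (nhds (mean f)) := by
  have : Fact ((0 : ℝ) < 1) := ⟨one_pos⟩
  have hspan : ∀ g ∈ Submodule.span ℂ (Set.range (@fourier (1 : ℝ))),
      Tendsto (avg x g) atTop (nhds (mean g)) := by
    intro g hg
    induction hg using Submodule.span_induction with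
    | mem g hg =>
      obtain ⟨n, rfl⟩ := hg
      by_cases hn : n = 0
      · subst hn
        have h1 : mean (fourier 0) = 1 := by
          unfold mean; simp
        rw [h1]
        apply tendsto_const_nhds.congr'
        filter_upwards [eventually_gt_atTop 0] with N hN
        have : (N : ℂ) ≠ 0 := by exact_mod_cast hN.ne'
        unfold avg
        simp [this]
      · have h1 : mean (fourier n) = 0 := by
          unfold mean
          have hc : (2 * Real.pi * Complex.I * n : ℂ) ≠ 0 := by
            have : (n : ℂ) ≠ 0 := by exact_mod_cast hn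
            have h2 : (Real.pi : ℂ) ≠ 0 := by exact_mod_cast Real.pi_ne_zero
            simp [this, h2, Complex.I_ne_zero]
          have := integral_exp_mul_complex (a := 0) (b := 1) hc
          have e : (fun u : ℝ => fourier n (u : AddCircle (1 : ℝ))) =
              fun u : ℝ => Complex.exp (2 * Real.pi * Complex.I * n * u) := by
            funext u
            rw [fourier_coe_apply]; simp
          rw [e, this]
          have : Complex.exp (2 * Real.pi * Complex.I * n) = 1 := by
            rw [← Complex.exp_int_mul_two_pi_mul_I n]; congr 1; ring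
          simp [this]
        rw [h1]
        rcases lt_or_gt_of_ne hn with hneg | hpos
        · have h2 := hx (-n).toNat (by omega)
          have h3 := (Complex.continuous_conj.tendsto 0).comp h2
          simp only [map_zero] at h3
          apply h3.congr
          intro N
          simp only [Function.comp, avg, wsum, map_div₀, map_sum, conj_ee, fourier_eq_ee,
            Complex.conj_natCast]
          congr 1
          apply Finset.sum_congr rfl
          intro k _
          congr 1
          have : (((-n).toNat : ℤ) : ℝ) = ((-n : ℤ) : ℝ) := by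
            rw [Int.toNat_of_nonneg (by omega)]
          push_cast at this
          rw [this]; ring
        · have h2 := hx n.toNat (by omega)
          apply h2.congr
          intro N
          simp only [avg, wsum, fourier_eq_ee]
          congr 1
          apply Finset.sum_congr rfl
          intro k _
          congr 1
          have : (((n).toNat : ℤ) : ℝ) = ((n : ℤ) : ℝ) := by
            rw [Int.toNat_of_nonneg (by omega)]
          push_cast at this
          rw [this]
    | zero =>
      have : mean 0 = 0 := by unfold mean; simp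
      rw [this]
      apply tendsto_const_nhds.congr
      intro N; unfold avg; simp
    | add f g _ _ hf hg =>
      have h1 : mean (f + g) = mean f + mean g := by
        unfold mean
        rw [← intervalIntegral.integral_add ((cont_coe f).intervalIntegrable _ _)
          ((cont_coe g).intervalIntegrable _ _)]
        rfl
      rw [h1]
      apply (hf.add hg).congr
      intro N; unfold avg
      simp [Finset.sum_add_distrib, add_div]
    | smul c f _ hf =>
      have h1 : mean (c • f) = c * mean f := by
        unfold mean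
        rw [← intervalIntegral.integral_const_mul]
        rfl
      rw [h1]
      apply (hf.const_mul c).congr
      intro N; unfold avg
      simp [Finset.mul_sum, mul_div_assoc, Finset.sum_div]
  rw [Metric.tendsto_nhds]
  intro ε hε
  have hmem : f ∈ (Submodule.span ℂ (Set.range (@fourier (1 : ℝ)))).topologicalClosure := by
    rw [span_fourier_closure_eq_top]; trivial
  have hmem' : f ∈ closure ((Submodule.span ℂ (Set.range (@fourier (1 : ℝ)))) : Set _) := hmem
  obtain ⟨g, hg, hfg⟩ := Metric.mem_closure_iff.1 hmem' (ε / 3) (by positivity)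
  have h1 := (Metric.tendsto_nhds.1 (hspan g hg)) (ε / 3) (by positivity)
  filter_upwards [h1] with N hN
  rw [dist_eq_norm] at hfg hN ⊢
  have a1 := avg_sub x f g N
  have a2 := mean_sub f g
  calc ‖avg x f N - mean f‖
      = ‖(avg x f N - avg x g N) + (avg x g N - mean g) - (mean f - mean g)‖ := by
        congr 1; ring
    _ ≤ ‖(avg x f N - avg x g N) + (avg x g N - mean g)‖ + ‖mean f - mean g‖ := norm_sub_le _ _
    _ ≤ ‖avg x f N - avg x g N‖ + ‖avg x g N - mean g‖ + ‖mean f - mean g‖ := by
        gcongr; exact norm_add_le _ _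
    _ < ε := by linarith

lemma integral_trap_ge {s t η : ℝ} (hη : 0 < η) (hs : 0 ≤ s) (ht : t ≤ 1) :
    t - s - 2 * η ≤ ∫ u in (0 : ℝ)..1, trap s t η u := by
  have hc := continuous_trap s t η
  rcases le_or_gt (s + η) (t - η) with hle | hlt
  · have e1 := intervalIntegral.integral_add_adjacent_intervals
      (hc.intervalIntegrable (μ := MeasureTheory.volume) 0 (s + η)) (hc.intervalIntegrable (s + η) (t - η))
    have e2 := intervalIntegral.integral_add_adjacent_intervals
      (hc.intervalIntegrable (μ := MeasureTheory.volume) 0 (t - η)) (hc.intervalIntegrable (t - η) 1)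
    have a1 : 0 ≤ ∫ u in (0 : ℝ)..(s + η), trap s t η u :=
      intervalIntegral.integral_nonneg (by linarith) fun u _ => trap_nonneg _ _ _ _
    have a2 : 0 ≤ ∫ u in (t - η)..1, trap s t η u :=
      intervalIntegral.integral_nonneg (by linarith) fun u _ => trap_nonneg _ _ _ _
    have a3 : ∫ u in (s + η)..(t - η), trap s t η u = ∫ u in (s + η)..(t - η), (1 : ℝ) := by
      apply intervalIntegral.integral_congr
      intro u hu
      rw [Set.uIcc_of_le hle] at hu
      exact trap_eq_one hη hu.1 hu.2
    simp at a3
    linarith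
  · have : 0 ≤ ∫ u in (0 : ℝ)..1, trap s t η u :=
      intervalIntegral.integral_nonneg zero_le_one fun u _ => trap_nonneg _ _ _ _
    linarith

theorem UD_of_weyl (x : ℕ → ℝ)
    (hx : ∀ h : ℕ, 1 ≤ h → Tendsto (fun N : ℕ => wsum x h N / N) atTop (nhds 0)) : UD x := by
  have : Fact ((0 : ℝ) < 1) := ⟨one_pos⟩
  rw [UD_iff_trap]
  intro s t η hs ht hη
  have hs' : (0 : ℝ) ≤ s := by exact_mod_cast hs
  have ht' : (t : ℝ) ≤ 1 := by exact_mod_cast ht
  have hη' : (0 : ℝ) < η := by exact_mod_cast hη
  let g : ℝ → ℂ := fun u => (trap s t η u : ℂ)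
  have hg : Continuous g := Complex.continuous_ofReal.comp (continuous_trap _ _ _)
  have hg01 : g 0 = g 1 := by
    simp only [g]
    rw [trap_eq_zero hη' (Or.inl hs'), trap_eq_zero hη' (Or.inr ht')]
  let f : C(AddCircle (1 : ℝ), ℂ) := ⟨AddCircle.liftIco 1 0 g,
    AddCircle.liftIco_zero_continuous hg01 hg.continuousOn⟩
  have hf : ∀ u : ℝ, f (u : AddCircle (1 : ℝ)) = g (Int.fract u) := by
    intro u
    have : (u : AddCircle (1 : ℝ)) = ((Int.fract u : ℝ) : AddCircle (1 : ℝ)) := by
      rw [AddCircle.coe_fract]
    rw [this]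
    exact AddCircle.liftIco_zero_coe_apply (p := (1 : ℝ)) (f := g)
      ⟨Int.fract_nonneg u, Int.fract_lt_one u⟩
  have h1 := weyl_cont x hx f
  have h2 : mean f = ((∫ u in (0 : ℝ)..1, trap s t η u : ℝ) : ℂ) := by
    unfold mean
    rw [← intervalIntegral.integral_ofReal]
    apply intervalIntegral.integral_congr
    intro u hu
    rw [Set.uIcc_of_le zero_le_one] at hu
    simp only [hf]
    rcases eq_or_lt_of_le hu.2 with h | h
    · rw [h, Int.fract_one]; exact hg01
    · rw [Int.fract_eq_self.2 ⟨hu.1, h⟩]
  rw [h2] at h1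
  have h3 := (Complex.continuous_re.tendsto _).comp h1
  simp only [Complex.ofReal_re] at h3
  have h4 := integral_trap_ge hη' hs' ht'
  have h5 := h3.eventually (lt_mem_nhds
    (show (t : ℝ) - s - 3 * η < ∫ u in (0 : ℝ)..1, trap s t η u by linarith))
  filter_upwards [h5, eventually_gt_atTop 0] with M a1 hM
  have hM' : (0 : ℝ) < M := by exact_mod_cast hM
  have e : avg x f M = (((∑ n ∈ Finset.range M, trap s t η (Int.fract (x n))) / M : ℝ) : ℂ) := by
    unfold avg
    simp only [hf, g]
    push_cast
    rfl
  simp only [Function.comp, e, Complex.ofReal_re] at a1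
  rw [lt_div_iff₀ hM'] at a1
  exact a1.le

end Pool.Agent.Lib.MP_0447a2_lc
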